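import Pool.Agent.W120.WM.Defs

set_option autoImplicit false

open MeasureTheory Filter Topology Set

namespace Pool.Agent.W892.WM
open Pool.Agent.W120.WM

/-- the entire function `s (s - 1) ζ(s)` without the factor `s - 1` pole -/
noncomputable def Fz (s : ℂ) : ℂ := s * riemannZeta₁ s

/-- the numerator -/
noncomputable def gg (h v : ℝ) (s : ℂ) : ℂ := (s - 1) * EE h v s

lemma Fz_diff : Differentiable ℂ Fz := differentiable_id.mul differentiable_riemannZeta₁

lemma gg_diff (h v : ℝ) : Differentiable ℂ (gg h v) := by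
  unfold gg EE; fun_prop

lemma zeta1_eq {s : ℂ} (hs : s ≠ 1) : riemannZeta₁ s = (s - 1) * riemannZeta s := by
  have h1 : s - 1 ≠ 0 := sub_ne_zero.mpr hs
  rw [riemannZeta_eq_inv_sub_mul hs]
  field_simp

lemma zeta_ne_strip {s : ℂ} (h1 : -1 / 2 ≤ s.re) (h2 : s.re ≤ 0) : riemannZeta s ≠ 0 := by
  by_cases h0 : s = 0
  · subst h0
    rw [riemannZeta_zero]
    norm_num
  · set w : ℂ := 1 - s with hw
    have hwre : w.re = 1 - s.re := by simp [hw]
    have hs : s = 1 - w := by simp [hw]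
    have hw1 : w ≠ 1 := by
      intro h; apply h0; rw [hs, h]; ring
    have hwn : ∀ n : ℕ, w ≠ -n := by
      intro n h
      have := congrArg Complex.re h
      rw [hwre] at this
      simp at this
      have hn : (0 : ℝ) ≤ n := n.cast_nonneg
      linarith
    rw [hs, riemannZeta_one_sub hwn hw1]
    have hz : riemannZeta w ≠ 0 := riemannZeta_ne_zero_of_one_le_re (by rw [hwre]; linarith)
    have hG : Complex.Gamma w ≠ 0 := Complex.Gamma_ne_zero hwn
    have hp : (2 * (Real.pi : ℂ)) ^ (-w) ≠ 0 := by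
      rw [Complex.cpow_def_of_ne_zero (by simp [Real.pi_ne_zero])]
      exact Complex.exp_ne_zero _
    have hc : Complex.cos (Real.pi * w / 2) ≠ 0 := by
      intro h
      rw [Complex.cos_eq_zero_iff] at h
      obtain ⟨k, hk⟩ := h
      have hpi : (Real.pi : ℂ) ≠ 0 := by exact_mod_cast Real.pi_ne_zero
      have hk2 : w = 2 * k + 1 := by
        have : (Real.pi : ℂ) * w = (Real.pi : ℂ) * (2 * k + 1) := by
          linear_combination 2 * hk
        exact mul_left_cancel₀ hpi this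
      have hre := congrArg Complex.re hk2
      rw [hwre] at hre
      have hre2 : 1 - s.re = 2 * (k : ℝ) + 1 := by
        rw [hre]; simp
      have hk0 : k = 0 := by
        have a1 : (-1 : ℝ) < k := by linarith
        have a2 : (k : ℝ) < 1 := by linarith
        have a3 : (-1 : ℤ) < k := by exact_mod_cast a1
        have a4 : k < (1 : ℤ) := by exact_mod_cast a2
        omega
      apply hw1
      rw [hk2, hk0]; simp
    refine mul_ne_zero (mul_ne_zero (mul_ne_zero (mul_ne_zero two_ne_zero hp) hG) hc) hz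

lemma zero_iff {s : ℂ} (h1 : -1 / 2 ≤ s.re) : Fz s = 0 ↔ s = 0 ∨ s ∈ NT := by
  unfold Fz
  constructor
  · intro h
    rcases mul_eq_zero.mp h with h | h
    · exact Or.inl h
    · right
      have hs1 : s ≠ 1 := by
        rintro rfl
        simp at h
      rw [zeta1_eq hs1] at h
      have hz : riemannZeta s = 0 := by
        rcases mul_eq_zero.mp h with h | h
        · exact absurd (sub_eq_zero.mp h) hs1
        · exact h
      refine ⟨hz, ?_, ?_⟩
      · by_contra hc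
        exact zeta_ne_strip h1 (not_lt.mp hc) hz
      · by_contra hc
        exact riemannZeta_ne_zero_of_one_le_re (not_lt.mp hc) hz
  · rintro (h | h)
    · simp [h]
    · have hs1 : s ≠ 1 := by
        rintro rfl
        have := h.2.2
        simp at this
      rw [zeta1_eq hs1, h.1]
      simp

lemma finite_zeros (K : Set ℂ) (hK : IsCompact K) : (K ∩ {s | Fz s = 0}).Finite := by
  by_contra hinf
  have hinf : (K ∩ {s | Fz s = 0}).Infinite := hinf
  obtain ⟨x, hx, hacc⟩ := hinf.exists_accPt_of_subset_isCompact hK inter_subset_left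
  rw [accPt_iff_frequently_nhdsNE] at hacc
  have hfr : ∃ᶠ z in 𝓝[≠] x, Fz z = 0 := hacc.mono (fun z hz => hz.2)
  have han : AnalyticOnNhd ℂ Fz univ := Fz_diff.differentiableOn.analyticOnNhd isOpen_univ
  have := han.eqOn_zero_of_preconnected_of_frequently_eq_zero isPreconnected_univ (mem_univ x) hfr
    (mem_univ 1)
  simp [Fz] at this

lemma deriv_Fz_zero : deriv Fz 0 = 1 / 2 := by
  have h := (hasDerivAt_id (0 : ℂ)).mul (differentiable_riemannZeta₁ 0).hasDerivAt
  have h2 : deriv Fz 0 = 1 * riemannZeta₁ 0 + id 0 * deriv riemannZeta₁ 0 := h.deriv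
  rw [h2, zeta1_eq zero_ne_one, riemannZeta_zero]
  norm_num

lemma deriv_Fz {ρ : ℂ} (hρ : ρ ∈ NT) : deriv Fz ρ = ρ * (ρ - 1) * deriv riemannZeta ρ := by
  have hs1 : ρ ≠ 1 := by
    rintro rfl
    have := hρ.2.2
    simp at this
  have h := (hasDerivAt_id ρ).mul (differentiable_riemannZeta₁ ρ).hasDerivAt
  have h2 : deriv Fz ρ = 1 * riemannZeta₁ ρ + id ρ * deriv riemannZeta₁ ρ := h.deriv
  have h3 : deriv riemannZeta₁ ρ = (ρ - 1) * deriv riemannZeta ρ := by
    have he : riemannZeta₁ =ᶠ[𝓝 ρ] fun s => (s - 1) * riemannZeta s := by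
      filter_upwards [isOpen_ne.mem_nhds hs1] with s hs
      exact zeta1_eq hs
    rw [he.deriv_eq]
    have h4 := ((hasDerivAt_id ρ).sub_const 1).mul (differentiableAt_riemannZeta hs1).hasDerivAt
    have h5 := h4.deriv
    simp only [id] at h5
    have h6 : deriv (fun s => (s - 1) * riemannZeta s) ρ =
      1 * riemannZeta ρ + (ρ - 1) * deriv riemannZeta ρ := h5
    rw [h6, hρ.1]
    ring
  rw [h2, h3, zeta1_eq hs1, hρ.1]
  simp only [id]
  ring

lemma quot_eq (h v : ℝ) {s : ℂ} (hs : s ≠ 1) : gg h v s / Fz s = GG h v s := by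
  have h1 : s - 1 ≠ 0 := sub_ne_zero.mpr hs
  unfold gg Fz GG
  rw [zeta1_eq hs]
  rw [show s * ((s - 1) * riemannZeta s) = (s - 1) * (s * riemannZeta s) by ring]
  rw [mul_div_mul_left _ _ h1]

lemma res_zero (h v : ℝ) : gg h v 0 / deriv Fz 0 = -2 := by
  rw [deriv_Fz_zero]
  unfold gg EE
  simp

lemma res_NT (h v : ℝ) {ρ : ℂ} (hρ : ρ ∈ NT) :
    gg h v ρ / deriv Fz ρ = EE h v ρ / (ρ * deriv riemannZeta ρ) := by
  have hs1 : ρ - 1 ≠ 0 := by
    intro h0
    have := hρ.2.2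
    rw [sub_eq_zero.mp h0] at this
    simp at this
  rw [deriv_Fz hρ]
  unfold gg
  rw [show ρ * (ρ - 1) * deriv riemannZeta ρ = (ρ - 1) * (ρ * deriv riemannZeta ρ) by ring]
  rw [mul_div_mul_left _ _ hs1]

lemma EE_norm (h v : ℝ) (x y : ℝ) :
    ‖EE h v (⟨x, y⟩ : ℂ)‖ = Real.exp (h ^ 2 / 2 * (x ^ 2 - y ^ 2) + v * x) := by
  unfold EE
  rw [Complex.norm_exp]
  congr 1
  have : ((h : ℂ) ^ 2 / 2 * (⟨x, y⟩ : ℂ) ^ 2 + v * (⟨x, y⟩ : ℂ)) =
      (⟨h ^ 2 / 2 * (x ^ 2 - y ^ 2) + v * x, h ^ 2 / 2 * (2 * x * y) + v * y⟩ : ℂ) := by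
    have e1 : (⟨x, y⟩ : ℂ) = x + y * Complex.I := Complex.mk_eq_add_mul_I x y
    rw [e1, Complex.mk_eq_add_mul_I]
    push_cast
    linear_combination ((h : ℂ) ^ 2 / 2 * (y : ℂ) ^ 2) * Complex.I_sq
  rw [this]

lemma decay (C h B : ℝ) (hh : 0 < h) :
    Tendsto (fun k : ℕ => 2 * Real.exp (B + C * Real.log ((k : ℝ) + 3) ^ 2 -
      h ^ 2 / 2 * ((k : ℝ) + 3) ^ 2)) atTop (𝓝 0) := by
  have hT : Tendsto (fun k : ℕ => (k : ℝ) + 3) atTop atTop :=
    tendsto_atTop_add_const_right _ _ tendsto_natCast_atTop_atTop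
  have h1 : Tendsto (fun T : ℝ => B + C * Real.log T ^ 2 - h ^ 2 / 2 * T ^ 2) atTop atBot := by
    have e : (fun T : ℝ => Real.log T ^ 2 / T) =o[atTop] (fun _ => (1 : ℝ)) := by
      have := (Real.isLittleO_pow_log_id_atTop (n := 2))
      rw [Asymptotics.isLittleO_one_iff]
      exact this.tendsto_div_nhds_zero
    rw [Asymptotics.isLittleO_one_iff] at e
    have h2 : Tendsto (fun T : ℝ => B / T + C * (Real.log T ^ 2 / T) - h ^ 2 / 2 * T) atTop
        atBot := by
      have a1 : Tendsto (fun T : ℝ => B / T + C * (Real.log T ^ 2 / T)) atTop (𝓝 (0 + C * 0)) :=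
        (tendsto_const_nhds.div_atTop tendsto_id).add (e.const_mul C)
      have a2 : Tendsto (fun T : ℝ => -(h ^ 2 / 2) * T) atTop atBot :=
        tendsto_id.const_mul_atTop_of_neg (by have := pow_pos hh 2; linarith)
      have a3 := a1.add_atBot a2
      refine a3.congr (fun T => ?_)
      ring
    have h3 := tendsto_id.atTop_mul_atBot₀ h2
    refine h3.congr' ?_
    filter_upwards [eventually_gt_atTop 0] with T hT
    simp only [id]
    field_simp
  have h4 := (Real.tendsto_exp_atBot.comp (h1.comp hT)).const_mul 2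
  simpa [Function.comp_def] using h4

theorem main (hINV : T_INV) (hRES : T_RES) (hHOR : T_HOR) (hLB : T_LB) : T_EF := by
  intro hsimple
  obtain ⟨C, hC, hH⟩ := hHOR
  choose! U hU hgood using hH
  set Uk : ℕ → ℝ := fun k => U ((k : ℝ) + 3) with hUk
  have hT3 : ∀ k : ℕ, (3 : ℝ) ≤ (k : ℝ) + 3 := fun k => by
    have : (0 : ℝ) ≤ k := k.cast_nonneg
    linarith
  have hUkI : ∀ k : ℕ, (k : ℝ) + 3 ≤ Uk k ∧ Uk k ≤ (k : ℝ) + 3 + 1 := fun k => hU _ (hT3 k)
  have hUpos : ∀ k, 0 < Uk k := fun k => by have := hT3 k; have := (hUkI k).1; linarith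
  have hUk3 : ∀ k, 3 ≤ Uk k := fun k => by have := hT3 k; have := (hUkI k).1; linarith
  set K : ℕ → Set ℂ := fun k => Icc (-1 / 2 : ℝ) (3 / 2) ×ℂ Icc (-(Uk k)) (Uk k) with hK
  have hKc : ∀ k, IsCompact (K k) := fun k => isCompact_Icc.reProdIm isCompact_Icc
  have hfin : ∀ k, (K k ∩ {s | Fz s = 0}).Finite := fun k => finite_zeros _ (hKc k)
  set W : ℕ → Finset ℂ := fun k => (hfin k).toFinset with hW
  have hWmem : ∀ k s, s ∈ W k ↔ s ∈ K k ∧ Fz s = 0 := by
    intro k s
    simp [hW]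
  have hKmem : ∀ k s, s ∈ K k ↔ (-1 / 2 ≤ s.re ∧ s.re ≤ 3 / 2) ∧ (-(Uk k) ≤ s.im ∧ s.im ≤ Uk k) := by
    intro k s
    simp only [hK, Complex.mem_reProdIm, mem_Icc]
  have hzero : ∀ k, (0 : ℂ) ∈ W k := by
    intro k
    rw [hWmem, hKmem]
    have := hUpos k
    refine ⟨⟨⟨by norm_num, by norm_num⟩, ⟨by simp; linarith, by simp; linarith⟩⟩, by simp [Fz]⟩
  set Z : ℕ → Finset ℂ := fun k => (W k).erase 0 with hZ
  have hZNT : ∀ k, ∀ ρ ∈ Z k, ρ ∈ NT := by
    intro k ρ hρ
    rw [hZ] at hρ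
    have h1 := Finset.mem_erase.mp hρ
    have h2 := (hWmem k ρ).mp h1.2
    have h3 := (hKmem k ρ).mp h2.1
    rcases (zero_iff h3.1.1).mp h2.2 with h | h
    · exact absurd h h1.1
    · exact h
  refine ⟨Z, hZNT, ?_⟩
  intro h v hh hh1
  obtain ⟨hI1, hI2⟩ := hINV h v hh
  obtain ⟨B, hB, hLB'⟩ := hLB
  obtain ⟨hL1, -⟩ := hLB' h v hh hh1
  -- the residue theorem
  have hres : ∀ k, (∫ x in (-1 / 2 : ℝ)..(3 / 2), GG h v (⟨x, -(Uk k)⟩ : ℂ)) -
      (∫ x in (-1 / 2 : ℝ)..(3 / 2), GG h v (⟨x, Uk k⟩ : ℂ))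
      + Complex.I * (∫ y in (-(Uk k))..(Uk k), GG h v (⟨3 / 2, y⟩ : ℂ))
      - Complex.I * (∫ y in (-(Uk k))..(Uk k), GG h v (⟨-1 / 2, y⟩ : ℂ))
      = 2 * Real.pi * Complex.I * (-2 + ∑ ρ ∈ Z k, EE h v ρ / (ρ * deriv riemannZeta ρ)) := by
    intro k
    have hp := hUpos k
    have key := hRES Fz (gg h v) (W k) (-1 / 2) (3 / 2) (-(Uk k)) (Uk k) (by norm_num)
      (by linarith) Fz_diff (gg_diff h v)
      (by
        intro s hs
        rw [hWmem]
        exact ⟨fun h => ⟨hs, h⟩, fun h => h.2⟩)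
      (by
        intro ρ hρ
        have h2 := (hWmem k ρ).mp hρ
        have h3 := (hKmem k ρ).mp h2.1
        rcases (zero_iff h3.1.1).mp h2.2 with h | h
        · subst h
          refine ⟨?_, by rw [deriv_Fz_zero]; norm_num⟩
          rw [Complex.mem_reProdIm]
          simp only [mem_Ioo, Complex.zero_re, Complex.zero_im]
          refine ⟨⟨by norm_num, by norm_num⟩, ⟨by linarith, hp⟩⟩
        · refine ⟨?_, ?_⟩
          · rw [Complex.mem_reProdIm]
            simp only [mem_Ioo]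
            have hne : |ρ.im| ≠ Uk k := by
              intro habs
              have := (hgood _ (hT3 k) ρ.re ⟨h3.1.1, h3.1.2⟩ ρ.im habs).1
              exact this h.1
            have hn1 : ρ.im ≠ Uk k := by
              intro hh
              apply hne
              rw [hh, abs_of_pos hp]
            have hn2 : ρ.im ≠ -(Uk k) := by
              intro hh
              apply hne
              rw [hh, abs_neg, abs_of_pos hp]
            refine ⟨⟨by have := h.2.1; linarith, by have := h.2.2; linarith⟩,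
              ⟨lt_of_le_of_ne h3.2.1 (Ne.symm hn2), lt_of_le_of_ne h3.2.2 hn1⟩⟩
          · rw [deriv_Fz h]
            have h0 : ρ ≠ 0 := by
              rintro rfl
              have := h.2.1
              simp at this
            have h1 : ρ - 1 ≠ 0 := by
              intro h0
              have := h.2.2
              rw [sub_eq_zero.mp h0] at this
              simp at this
            exact mul_ne_zero (mul_ne_zero h0 h1) (hsimple ρ h))
    have e1 : ∀ y : ℝ, y ≠ 0 → ∀ x : ℝ, gg h v (⟨x, y⟩ : ℂ) / Fz ⟨x, y⟩ = GG h v (⟨x, y⟩ : ℂ) := by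
      intro y hy x
      apply quot_eq
      intro h
      have := congrArg Complex.im h
      simp at this
      exact hy this
    have e2 : ∀ x : ℝ, x ≠ 1 → ∀ y : ℝ, gg h v (⟨x, y⟩ : ℂ) / Fz ⟨x, y⟩ = GG h v (⟨x, y⟩ : ℂ) := by
      intro x hx y
      apply quot_eq
      intro h
      have := congrArg Complex.re h
      simp at this
      exact hx this
    simp only [e1 _ hp.ne', e1 _ (neg_ne_zero.mpr hp.ne')] at key
    have e3 : ∀ y : ℝ, gg h v (⟨3 / 2, y⟩ : ℂ) / Fz ⟨3 / 2, y⟩ = GG h v (⟨3 / 2, y⟩ : ℂ) :=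
      e2 (3 / 2) (by norm_num)
    have e4 : ∀ y : ℝ, gg h v (⟨-1 / 2, y⟩ : ℂ) / Fz ⟨-1 / 2, y⟩ = GG h v (⟨-1 / 2, y⟩ : ℂ) :=
      e2 (-1 / 2) (by norm_num)
    simp only [e3, e4] at key
    rw [key]
    congr 1
    rw [← Finset.add_sum_erase (W k) _ (hzero k), res_zero]
    congr 1
    apply Finset.sum_congr rfl
    intro ρ hρ
    exact res_NT h v (hZNT k ρ hρ)
  -- horizontal sides
  have hbound : ∀ k, ∀ y : ℝ, |y| = Uk k →
      ‖∫ x in (-1 / 2 : ℝ)..(3 / 2), GG h v (⟨x, y⟩ : ℂ)‖ ≤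
        2 * Real.exp ((9 / 8 + 3 / 2 * |v|) + C * Real.log ((k : ℝ) + 3) ^ 2 -
          h ^ 2 / 2 * ((k : ℝ) + 3) ^ 2) := by
    intro k y hy
    have := intervalIntegral.norm_integral_le_of_norm_le_const
      (a := (-1 / 2 : ℝ)) (b := 3 / 2) (f := fun x => GG h v (⟨x, y⟩ : ℂ))
      (C := Real.exp ((9 / 8 + 3 / 2 * |v|) + C * Real.log ((k : ℝ) + 3) ^ 2 -
          h ^ 2 / 2 * ((k : ℝ) + 3) ^ 2)) (by
        intro x hx
        rw [uIoc_of_le (by norm_num)] at hx
        have hx1 : -1 / 2 ≤ x := hx.1.le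
        have hx2 : x ≤ 3 / 2 := hx.2
        obtain ⟨hz, hzb⟩ := hgood _ (hT3 k) x ⟨hx1, hx2⟩ y hy
        have hU3 := hUk3 k
        have hnorm1 : 1 ≤ ‖(⟨x, y⟩ : ℂ)‖ := by
          have := Complex.abs_im_le_norm (⟨x, y⟩ : ℂ)
          simp only at this
          rw [hy] at this
          linarith
        unfold GG
        rw [norm_div, norm_mul, EE_norm]
        have hzpos : 0 < ‖riemannZeta (⟨x, y⟩ : ℂ)‖ := norm_pos_iff.mpr hz
        rw [norm_inv] at hzb
        have hv : v * x ≤ 3 / 2 * |v| := by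
          have h1 : |v * x| ≤ |v| * (3 / 2) := by
            rw [abs_mul]
            apply mul_le_mul_of_nonneg_left _ (abs_nonneg v)
            rw [abs_le]; constructor <;> linarith
          have := le_abs_self (v * x)
          linarith
        have hx3 : x ^ 2 ≤ 9 / 4 := by nlinarith
        have hy2 : y ^ 2 = Uk k ^ 2 := by rw [← hy, sq_abs]
        have hTU : ((k : ℝ) + 3) ^ 2 ≤ y ^ 2 := by
          rw [hy2]
          have := (hUkI k).1
          have := hT3 k
          apply pow_le_pow_left₀ (by linarith) (by linarith)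
        have hh2 : h ^ 2 ≤ 1 := by nlinarith
        have hh3 : 0 < h ^ 2 := pow_pos hh 2
        have hexp : h ^ 2 / 2 * (x ^ 2 - y ^ 2) + v * x ≤
            (9 / 8 + 3 / 2 * |v|) - h ^ 2 / 2 * ((k : ℝ) + 3) ^ 2 := by
          have a1 : h ^ 2 / 2 * x ^ 2 ≤ 9 / 8 := by nlinarith
          have a2 : h ^ 2 / 2 * ((k : ℝ) + 3) ^ 2 ≤ h ^ 2 / 2 * y ^ 2 :=
            mul_le_mul_of_nonneg_left hTU (by positivity)
          nlinarith
        calc Real.exp (h ^ 2 / 2 * (x ^ 2 - y ^ 2) + v * x) /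
              (‖(⟨x, y⟩ : ℂ)‖ * ‖riemannZeta (⟨x, y⟩ : ℂ)‖)
            ≤ Real.exp (h ^ 2 / 2 * (x ^ 2 - y ^ 2) + v * x) / (1 * ‖riemannZeta (⟨x, y⟩ : ℂ)‖) := by
              apply div_le_div_of_nonneg_left (Real.exp_pos _).le (by positivity)
              exact mul_le_mul_of_nonneg_right hnorm1 hzpos.le
          _ = Real.exp (h ^ 2 / 2 * (x ^ 2 - y ^ 2) + v * x) * ‖riemannZeta (⟨x, y⟩ : ℂ)‖⁻¹ := by
              rw [one_mul, div_eq_mul_inv]
          _ ≤ Real.exp ((9 / 8 + 3 / 2 * |v|) - h ^ 2 / 2 * ((k : ℝ) + 3) ^ 2) *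
              Real.exp (C * Real.log ((k : ℝ) + 3) ^ 2) := by
              apply mul_le_mul (Real.exp_le_exp.mpr hexp) hzb (by positivity) (Real.exp_pos _).le
          _ = _ := by
              rw [← Real.exp_add]
              congr 1
              ring)
    refine this.trans (le_of_eq ?_)
    rw [show |(3 / 2 : ℝ) - (-1 / 2)| = 2 by norm_num]
    ring
  have hdec := decay C h (9 / 8 + 3 / 2 * |v|) hh
  have hbot : Tendsto (fun k => ∫ x in (-1 / 2 : ℝ)..(3 / 2), GG h v (⟨x, -(Uk k)⟩ : ℂ)) atTop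
      (𝓝 0) := squeeze_zero_norm (fun k => hbound k _ (by rw [abs_neg, abs_of_pos (hUpos k)])) hdec
  have htop : Tendsto (fun k => ∫ x in (-1 / 2 : ℝ)..(3 / 2), GG h v (⟨x, Uk k⟩ : ℂ)) atTop
      (𝓝 0) := squeeze_zero_norm (fun k => hbound k _ (abs_of_pos (hUpos k))) hdec
  have hUt : Tendsto Uk atTop atTop :=
    tendsto_atTop_mono (fun k => by have := (hUkI k).1; linarith) tendsto_natCast_atTop_atTop
  have hUb : Tendsto (fun k => -(Uk k)) atTop atBot := tendsto_neg_atTop_atBot.comp hUt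
  have hr := intervalIntegral_tendsto_integral hI1 hUb hUt
  have hl := intervalIntegral_tendsto_integral hL1 hUb hUt
  have hpi : (Real.pi : ℂ) ≠ 0 := by exact_mod_cast Real.pi_ne_zero
  have hS : ∀ k, ∑ ρ ∈ Z k, EE h v ρ / (ρ * deriv riemannZeta ρ) = 2 +
      (2 * Real.pi * Complex.I)⁻¹ *
      ((∫ x in (-1 / 2 : ℝ)..(3 / 2), GG h v (⟨x, -(Uk k)⟩ : ℂ)) -
      (∫ x in (-1 / 2 : ℝ)..(3 / 2), GG h v (⟨x, Uk k⟩ : ℂ))
      + Complex.I * (∫ y in (-(Uk k))..(Uk k), GG h v (⟨3 / 2, y⟩ : ℂ))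
      - Complex.I * (∫ y in (-(Uk k))..(Uk k), GG h v (⟨-1 / 2, y⟩ : ℂ))) := by
    intro k
    rw [hres k]
    have h2 : (2 * (Real.pi : ℂ) * Complex.I) ≠ 0 :=
      mul_ne_zero (mul_ne_zero two_ne_zero hpi) Complex.I_ne_zero
    rw [← mul_assoc, inv_mul_cancel₀ h2]
    ring
  simp only [hS]
  have hlim := ((((hbot.sub htop).add (hr.const_mul Complex.I)).sub
    (hl.const_mul Complex.I)).const_mul (2 * (Real.pi : ℂ) * Complex.I)⁻¹).const_add 2
  convert hlim using 2
  rw [hI2]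
  push_cast
  have hI : Complex.I ≠ 0 := Complex.I_ne_zero
  field_simp
  ring

end Pool.Agent.W892.WM
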